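import Mathlib

set_option autoImplicit false

/-!
Lemma A for `MP_efa40c_ag`: if the `a`-th iterate of the derivation along `p` kills a form `F` of degree `d`,
then `F (p + τ v)` is divisible by `τ ^ (d + 1 - a)`.
-/

namespace Pool.Agent.TH443.FI

open MvPolynomial

theorem dsum_apply {N : ℕ} (s : Finset (Fin N))
    (f : Fin N → Derivation ℂ (MvPolynomial (Fin N) ℂ) (MvPolynomial (Fin N) ℂ))
    (x : MvPolynomial (Fin N) ℂ) : (∑ i ∈ s, f i) x = ∑ i ∈ s, f i x := by
  classical
  induction s using Finset.induction_on with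
  | empty => simp
  | insert a s ha ih => rw [Finset.sum_insert ha, Finset.sum_insert ha, Derivation.add_apply, ih]

/-- The derivation along `p` as a sum of partial derivatives. -/
theorem D_eq {N : ℕ} (p : Fin N → ℂ) (F : MvPolynomial (Fin N) ℂ) :
    MvPolynomial.mkDerivation ℂ (fun i => (MvPolynomial.C (p i) : MvPolynomial (Fin N) ℂ)) F
      = ∑ i, MvPolynomial.C (p i) * MvPolynomial.pderiv i F := by
  have h : MvPolynomial.mkDerivation ℂ (fun i => (MvPolynomial.C (p i) : MvPolynomial (Fin N) ℂ))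
      = ∑ i, (MvPolynomial.C (p i) : MvPolynomial (Fin N) ℂ) • MvPolynomial.pderiv i := by
    apply MvPolynomial.derivation_ext
    intro j
    rw [MvPolynomial.mkDerivation_X, dsum_apply]
    simp [MvPolynomial.pderiv_X, Pi.single_apply]
  rw [h, dsum_apply]
  simp

theorem D_hom {N d : ℕ} (p : Fin N → ℂ) (F : MvPolynomial (Fin N) ℂ) (hF : F.IsHomogeneous d) :
    (MvPolynomial.mkDerivation ℂ (fun i => (MvPolynomial.C (p i) : MvPolynomial (Fin N) ℂ)) F).IsHomogeneous
      (d - 1) := by
  rw [D_eq]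
  apply MvPolynomial.IsHomogeneous.sum
  intro i _
  have h1 : (MvPolynomial.C (p i) : MvPolynomial (Fin N) ℂ).IsHomogeneous 0 :=
    MvPolynomial.isHomogeneous_C _ _
  have h2 := h1.mul (hF.pderiv (i := i))
  simpa using h2

theorem D_iter_hom {N d : ℕ} (p : Fin N → ℂ) (F : MvPolynomial (Fin N) ℂ) (hF : F.IsHomogeneous d)
    (j : ℕ) :
    ((⇑(MvPolynomial.mkDerivation ℂ
      (fun i => (MvPolynomial.C (p i) : MvPolynomial (Fin N) ℂ))))^[j] F).IsHomogeneous (d - j) := by
  induction j with
  | zero => simpa using hF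
  | succ j ih =>
    rw [Function.iterate_succ_apply']
    have h := D_hom p _ ih
    rwa [Nat.sub_sub] at h

/-- The substitution `x_i ↦ w_i + s p_i` with a new variable `s`. -/
noncomputable def Phi {N : ℕ} (p : Fin N → ℂ) (w : Fin N → Polynomial ℂ) :
    MvPolynomial (Fin N) ℂ →ₐ[ℂ] Polynomial (Polynomial ℂ) :=
  MvPolynomial.aeval (fun i => Polynomial.C (w i) + Polynomial.X * Polynomial.C (Polynomial.C (p i)))

theorem deriv_Phi {N : ℕ} (p : Fin N → ℂ) (w : Fin N → Polynomial ℂ) (F : MvPolynomial (Fin N) ℂ) :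
    Polynomial.derivative (Phi p w F)
      = Phi p w (MvPolynomial.mkDerivation ℂ
        (fun i => (MvPolynomial.C (p i) : MvPolynomial (Fin N) ℂ)) F) := by
  induction F using MvPolynomial.induction_on with
  | C c =>
    rw [MvPolynomial.derivation_C, map_zero]
    unfold Phi
    rw [MvPolynomial.aeval_C]
    rw [IsScalarTower.algebraMap_apply ℂ (Polynomial ℂ) (Polynomial (Polynomial ℂ))]
    exact Polynomial.derivative_C
  | add f g hf hg =>
    rw [map_add, map_add, map_add, map_add, hf, hg]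
  | mul_X f i hf =>
    rw [map_mul, Polynomial.derivative_mul, hf, Derivation.leibniz, map_add]
    have h1 : Phi p w (MvPolynomial.X i)
        = Polynomial.C (w i) + Polynomial.X * Polynomial.C (Polynomial.C (p i)) := by
      unfold Phi
      rw [MvPolynomial.aeval_X]
    have h2 : Phi p w (MvPolynomial.C (p i)) = Polynomial.C (Polynomial.C (p i)) := by
      unfold Phi
      rw [MvPolynomial.aeval_C]
      rfl
    rw [MvPolynomial.mkDerivation_X, smul_eq_mul, smul_eq_mul, map_mul, map_mul, h1, h2]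
    simp only [Polynomial.derivative_add, Polynomial.derivative_C, Polynomial.derivative_mul,
      Polynomial.derivative_X]
    ring

theorem deriv_iter_Phi {N : ℕ} (p : Fin N → ℂ) (w : Fin N → Polynomial ℂ) (F : MvPolynomial (Fin N) ℂ)
    (j : ℕ) :
    Polynomial.derivative^[j] (Phi p w F)
      = Phi p w ((⇑(MvPolynomial.mkDerivation ℂ
        (fun i => (MvPolynomial.C (p i) : MvPolynomial (Fin N) ℂ))))^[j] F) := by
  induction j with
  | zero => rfl
  | succ j ih =>
    rw [Function.iterate_succ_apply', Function.iterate_succ_apply', ih, deriv_Phi]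

theorem Phi_coeff_zero {N : ℕ} (p : Fin N → ℂ) (w : Fin N → Polynomial ℂ) (F : MvPolynomial (Fin N) ℂ) :
    (Phi p w F).coeff 0 = MvPolynomial.aeval w F := by
  induction F using MvPolynomial.induction_on with
  | C c =>
    unfold Phi
    rw [MvPolynomial.aeval_C, MvPolynomial.aeval_C]
    rw [IsScalarTower.algebraMap_apply ℂ (Polynomial ℂ) (Polynomial (Polynomial ℂ))]
    exact Polynomial.coeff_C_zero
  | add f g hf hg =>
    rw [map_add, map_add, Polynomial.coeff_add, hf, hg]
  | mul_X f i hf =>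
    rw [map_mul, map_mul, Polynomial.mul_coeff_zero, hf]
    unfold Phi
    rw [MvPolynomial.aeval_X, MvPolynomial.aeval_X]
    simp

theorem Phi_eval_one {N : ℕ} (p : Fin N → ℂ) (w : Fin N → Polynomial ℂ) (F : MvPolynomial (Fin N) ℂ) :
    (Phi p w F).eval 1 = MvPolynomial.aeval (fun i => Polynomial.C (p i) + w i) F := by
  induction F using MvPolynomial.induction_on with
  | C c =>
    unfold Phi
    rw [MvPolynomial.aeval_C, MvPolynomial.aeval_C]
    rw [IsScalarTower.algebraMap_apply ℂ (Polynomial ℂ) (Polynomial (Polynomial ℂ))]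
    exact Polynomial.eval_C
  | add f g hf hg =>
    rw [map_add, map_add, Polynomial.eval_add, hf, hg]
  | mul_X f i hf =>
    rw [map_mul, map_mul, Polynomial.eval_mul, hf]
    unfold Phi
    rw [MvPolynomial.aeval_X, MvPolynomial.aeval_X]
    simp [add_comm]

theorem aeval_smul {N e : ℕ} (v : Fin N → Polynomial ℂ) (τ : Polynomial ℂ)
    (G : MvPolynomial (Fin N) ℂ) (hG : G.IsHomogeneous e) :
    MvPolynomial.aeval (fun i => τ * v i) G = τ ^ e * MvPolynomial.aeval v G := by
  rw [MvPolynomial.aeval_def, MvPolynomial.aeval_def, MvPolynomial.eval₂_eq', MvPolynomial.eval₂_eq',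
    Finset.mul_sum]
  apply Finset.sum_congr rfl
  intro m hm
  have h1 : m.sum (fun _ k => k) = e := by
    have h := hG (MvPolynomial.mem_support_iff.mp hm)
    rw [Finsupp.weight_apply] at h
    simpa using h
  have h2 : ∑ i, m i = e := by
    rw [← h1, Finsupp.sum_fintype]
    intro i
    rfl
  have h3 : ∏ i, (τ * v i) ^ m i = τ ^ e * ∏ i, v i ^ m i := by
    rw [← h2, ← Finset.prod_pow_eq_pow_sum, ← Finset.prod_mul_distrib]
    apply Finset.prod_congr rfl
    intro i _
    rw [mul_pow]
  rw [h3]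
  ring

/-- Lemma A. -/
theorem lemA {N d a : ℕ} (p : Fin N → ℂ) (F : MvPolynomial (Fin N) ℂ) (hF : F.IsHomogeneous d)
    (ha : (⇑(MvPolynomial.mkDerivation ℂ
      (fun i => (MvPolynomial.C (p i) : MvPolynomial (Fin N) ℂ))))^[a] F = 0)
    (v : Fin N → Polynomial ℂ) (τ : Polynomial ℂ) :
    τ ^ (d + 1 - a) ∣ MvPolynomial.aeval (fun i => Polynomial.C (p i) + τ * v i) F := by
  rw [← Phi_eval_one p (fun i => τ * v i) F, Polynomial.eval_eq_sum_range]
  apply Finset.dvd_sum
  intro j hjr
  clear hjr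
  rw [one_pow, mul_one]
  have key : ((j.factorial : ℕ) : Polynomial ℂ) * (Phi p (fun i => τ * v i) F).coeff j
      = MvPolynomial.aeval (fun i => τ * v i) ((⇑(MvPolynomial.mkDerivation ℂ
        (fun i => (MvPolynomial.C (p i) : MvPolynomial (Fin N) ℂ))))^[j] F) := by
    rw [← Phi_coeff_zero p, ← deriv_iter_Phi, Polynomial.coeff_iterate_derivative, zero_add,
      Nat.descFactorial_self, nsmul_eq_mul]
  have hne : ((j.factorial : ℕ) : Polynomial ℂ) * Polynomial.C (((j.factorial : ℕ) : ℂ)⁻¹) = 1 := by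
    have h0 : ((j.factorial : ℕ) : ℂ) ≠ 0 := by exact_mod_cast Nat.factorial_ne_zero j
    rw [← Polynomial.C_eq_natCast, ← Polynomial.C_mul, mul_inv_cancel₀ h0, Polynomial.C_1]
  have hco : (Phi p (fun i => τ * v i) F).coeff j
      = Polynomial.C (((j.factorial : ℕ) : ℂ)⁻¹) * MvPolynomial.aeval (fun i => τ * v i)
        ((⇑(MvPolynomial.mkDerivation ℂ
        (fun i => (MvPolynomial.C (p i) : MvPolynomial (Fin N) ℂ))))^[j] F) := by
    rw [← key, ← mul_assoc, mul_comm (Polynomial.C _), hne, one_mul]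
  rw [hco]
  by_cases hj : a ≤ j
  · have hz : (⇑(MvPolynomial.mkDerivation ℂ
        (fun i => (MvPolynomial.C (p i) : MvPolynomial (Fin N) ℂ))))^[j] F = 0 := by
      obtain ⟨k, rfl⟩ := Nat.exists_eq_add_of_le hj
      rw [add_comm, Function.iterate_add_apply, ha]
      clear hco key hne hj ha
      induction k with
      | zero => rfl
      | succ k ih => rw [Function.iterate_succ_apply', ih, map_zero]
    rw [hz, map_zero, mul_zero]
    exact dvd_zero _
  · push Not at hj
    rw [aeval_smul v τ _ (D_iter_hom p F hF j)]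
    apply Dvd.dvd.mul_left
    apply Dvd.dvd.mul_right
    exact pow_dvd_pow τ (by omega)

end Pool.Agent.TH443.FI
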